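import Pool.Agent.Y194.BL.Grp
import Pool.Agent.Y18.NF.El

/-!
# Elliptic curves over `ℚ` in arbitrary abelian extensions of prime power degree

`E_1, …, E_r` are elliptic curves over `ℚ` with `L(E_i, 1) ≠ 0`, given with their newforms. Then there is an
integer `D ≠ 0`, which depends only on the `E_i`, with the following property. Let `ℓ` be **any** prime, `m` **any**
modulus composed of primes `q ∤ 2Δ_i` and `H` **any** group of Dirichlet characters modulo `m` of `ℓ`-power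
order, i.e. the group of characters of `Gal(F/ℚ)` for **any** abelian extension `F` of `ℚ` of `ℓ`-power degree
whose conductor divides `m`: any exponent, any number of generators, any number of ramified primes. Put
`v = v_ℓ(D ∏_i c_i(m))`, `c_i(m) = ∏_{q ∣ m} c_{i,q}`, where `c_{i,q} = a_q(E_i) - 2` if `q ∥ m`. Then

  `#{χ ∈ H : L(E_i, χ, 1) ≠ 0 for i = 1, …, r} ≥ #H / ℓ^v`    (if the `c_i(m)` are not `0`).

If `m` is admissible for `ℓ` (`ℓ ∤ a_q(E_i) - 2` for the primes `q ≠ ℓ` dividing `m`, which divide `m` exactly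
once; `ℓ² ∣ m` and `ℓ ∤ a_ℓ (a_ℓ - 1)` if `ℓ ∣ m`), then `v = v_ℓ(D)` depends only on the `E_i` and on `ℓ`. So there
is a **fixed** proportion `ℓ^{-v_ℓ(D)}` of nonvanishing central values in **every** group of admissible characters of
`ℓ`-power order. For these `χ` the `χ`-parts of the `E_i(F) ⊗ ℂ` vanish by a theorem of Kato, so that
`ord_{s=1} L(E_i, χ, s) = dim (E_i(F) ⊗ ℂ)^χ = 0`: the conjecture of Birch and Swinnerton-Dyer holds for
the corresponding factors of `L(E_i / F, s)`.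

Proof. The new ingredient is an **`ℓ`-adic uncertainty principle** (`Pool.Agent.Y194.UP`): if `G` is a finite abelian
`ℓ`-group and the augmentation of `x ∈ O[G]` divides the integer `c ≠ 0`, then `x` vanishes at no more than
`(1 - ℓ^{-v(c)}) #G` characters of `G`. (For an ideal `I` of `O[G]` put `D(I) = ∑_k ℓ^{-k} log [ℓ^k Q : ℓ^{k+1} Q]`,
`Q = O[G]/I`. Then `D(I) ≤ ℓ D(I + (γ - 1))` for all `γ` with `γ^ℓ` trivial on `Q`; so `D(I) ≤ #G D(I + Aug)`,
and this is the assertion.) It is applied to the product over `i` of the elements formed with the modular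
symbols `{u/m}` of the `E_i`; these become algebraic integers by homomorphisms `Λ_i` of the groups of
periods which respect all linear relations with algebraic coefficients.
-/

set_option autoImplicit false

open Complex UpperHalfPlane MatrixGroups CongruenceSubgroup

namespace Pool.Agent.Results.MP_ae0bd0_nt.LPowerGroups

/-- `N_p`: the number of pairs `(x, y) ∈ (ℤ/p)²` with `y² = x³ + a x + b`. -/
noncomputable def pointCount (a b : ℤ) (p : ℕ) : ℕ :=
  Nat.card {q : ZMod p × ZMod p // q.2 ^ 2 = q.1 ^ 3 + (a : ZMod p) * q.1 + (b : ZMod p)}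

/-- `p` is a prime not dividing `2 Δ`, `Δ = -4 a³ - 27 b²`. -/
def GoodPrime (a b : ℤ) (p : ℕ) : Prop :=
  p.Prime ∧ ¬ ((p : ℤ) ∣ 2 * (-4 * a ^ 3 - 27 * b ^ 2))

/-- `a_p = p - N_p` -/
noncomputable def ap (a b : ℤ) (p : ℕ) : ℤ := (p : ℤ) - (pointCount a b p : ℤ)

open Classical in
/-- `L(E, 1) ≠ 0` for `E : y² = x³ + a x + b`: there is an entire function `F` which for `Re s > 3/2` is the
incomplete L-series `∏_{p ∤ 2Δ} (1 - a_p p^{-s} + p^{1-2s})⁻¹` of `E`, and `F(1) ≠ 0`. -/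
def AnalyticRankZero (a b : ℤ) : Prop :=
  ∃ F : ℂ → ℂ, (Differentiable ℂ F ∧ ∀ s : ℂ, (3 : ℝ) / 2 < s.re →
    HasProd (fun p : ℕ => if GoodPrime a b p then
      (1 - ((p : ℂ) - (pointCount a b p : ℂ)) * (p : ℂ) ^ (-s) + (p : ℂ) ^ (1 - 2 * s))⁻¹ else 1)
      (F s)) ∧ F 1 ≠ 0

open Classical in
/-- `F(s) = L(E, χ, s)`: the function `F` is entire and for `Re s > 3/2` it is the incomplete L-series
`∏_{p ∤ 2Δ} (1 - χ(p) a_p p^{-s} + χ(p)² p^{1-2s})⁻¹`. (The omitted Euler factors do not vanish at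
`s = 1`.) -/
def IsTwistedL (a b : ℤ) {m : ℕ} (χ : DirichletCharacter ℂ m) (F : ℂ → ℂ) : Prop :=
  Differentiable ℂ F ∧ ∀ s : ℂ, (3 : ℝ) / 2 < s.re →
    HasProd (fun p : ℕ => if GoodPrime a b p then
      (1 - χ (p : ZMod m) * ((p : ℂ) - (pointCount a b p : ℂ)) * (p : ℂ) ^ (-s) +
        χ (p : ZMod m) ^ 2 * (p : ℂ) ^ (1 - 2 * s))⁻¹ else 1) (F s)

/-- `L(E, χ, 1) = 0` -/
def Vanishes (a b : ℤ) {m : ℕ} (χ : DirichletCharacter ℂ m) : Prop :=
  ∃ F : ℂ → ℂ, IsTwistedL a b χ F ∧ F 1 = 0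

/-- The local factors of the sums of the modular symbols: `1`, `a - 2`, `a (a - 2) - (q - 1)`, and
`cc (k + 2) = a cc (k + 1) - q cc k` for `k ≥ 1`. -/
def cc (a q : ℤ) : ℕ → ℤ
  | 0 => 1
  | 1 => a - 2
  | (k + 2) => a * cc a q (k + 1) - (if k = 0 then q - 1 else q) * cc a q k

/-- `c(m) = ∏_{q ∣ m} cc a_q q v_q(m)`; if `m` is squarefree, this is the product of the `a_q - 2`. -/
noncomputable def c (a b : ℤ) (m : ℕ) : ℤ :=
  ∏ q ∈ m.primeFactors, cc (ap a b q) q (m.factorization q)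

/-- `m` is admissible for `ℓ`: the primes `q ≠ ℓ` dividing `m` divide it exactly once, and
`ℓ ∤ a_q - 2`; if `ℓ ∣ m`, then `ℓ² ∣ m`, `ℓ ∤ a_ℓ` and `ℓ ∤ a_ℓ - 1`. -/
def Admissible (a b : ℤ) (l m : ℕ) : Prop :=
  ∀ q : ℕ, q.Prime → q ∣ m → (q ≠ l → ¬ q ^ 2 ∣ m ∧ ¬ (l : ℤ) ∣ ap a b q - 2) ∧
    (q = l → l ^ 2 ∣ m ∧ ¬ (l : ℤ) ∣ ap a b l ∧ ¬ (l : ℤ) ∣ ap a b l - 1)

/-- The number of the `χ ∈ H` with `L(E_i, χ, 1) ≠ 0` for all `i`. -/
noncomputable def nonvanishing {r : ℕ} (a b : Fin r → ℤ) {m : ℕ}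
    (H : Subgroup (DirichletCharacter ℂ m)) : ℕ :=
  Nat.card {χ : H // ∀ i, ¬ Vanishes (a i) (b i) (χ : DirichletCharacter ℂ m)}

/-- The `n`-th Fourier coefficient of `f`. -/
noncomputable def coef {N : ℕ} (f : CuspForm (Gamma0 N : Subgroup (GL (Fin 2) ℝ)) 2) (n : ℕ) : ℂ :=
  (qExpansion 1 f).coeff n

/-- `f ∈ S_2(Γ₀(N))` is the newform of the elliptic curve `E : y² = x³ + a x + b`, with its standard
properties: the Fourier coefficients `c(n)` of `f` are real with `c(1) = 1`, they satisfy the Hecke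
relations `c(mn) = c(m) c(n)` for coprime `m`, `n` and `c(p^(j+2)) = c(p) c(p^(j+1)) - p c(p^j)`
(without the last term if `p ∣ N`) and the bounds `|c(p)| ≤ 2√p` for `p ∤ N`, `|c(p)| ≤ 1` for
`p ∣ N`; `f` is an eigenfunction of the Fricke involution: `f(-1/(Nτ)) = -w N τ² f(τ)` with `w = ±1`;
for all primes `p ∤ 2Δ` one has `p ∤ N` and `c(p) = a_p(E)`.  (Every elliptic curve over `ℚ` has such a
form by the modularity theorem.) -/
structure IsFormOf (a b : ℤ) (N : ℕ) (f : CuspForm (Gamma0 N : Subgroup (GL (Fin 2) ℝ)) 2) :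
    Prop where
  one : coef f 1 = 1
  real : ∀ n, (coef f n).im = 0
  mul : ∀ m n : ℕ, Nat.Coprime m n → coef f (m * n) = coef f m * coef f n
  pow : ∀ p j : ℕ, p.Prime → coef f (p ^ (j + 2)) = coef f p * coef f (p ^ (j + 1)) -
      (if p ∣ N then 0 else (p : ℂ) * coef f (p ^ j))
  good : ∀ p : ℕ, p.Prime → ¬ p ∣ N → ‖coef f p‖ ≤ 2 * Real.sqrt p
  bad : ∀ p : ℕ, p.Prime → p ∣ N → ‖coef f p‖ ≤ 1
  fricke : ∃ w : ℝ, (w = 1 ∨ w = -1) ∧ ∀ τ τ' : ℍ, (τ' : ℂ) * ((N : ℂ) * (τ : ℂ)) = -1 →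
    f τ' = -(w : ℂ) * (N : ℂ) * (τ : ℂ) ^ 2 * f τ
  points : ∀ p : ℕ, GoodPrime a b p → ¬ p ∣ N ∧ coef f p = (p : ℂ) - (pointCount a b p : ℂ)

lemma cc_eq (a q : ℤ) (k : ℕ) : cc a q k = Pool.Agent.Y194.BL.cc a q k := by
  induction k using Nat.twoStepInduction with
  | zero => rfl
  | one => rfl
  | more k ih1 ih2 =>
    show a * cc a q (k + 1) - (if k = 0 then q - 1 else q) * cc a q k =
      a * Pool.Agent.Y194.BL.cc a q (k + 1) -
        (if k = 0 then q - 1 else q) * Pool.Agent.Y194.BL.cc a q k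
    rw [ih1, ih2]

lemma c_eq (a b : ℤ) (m : ℕ) :
    c a b m = Pool.Agent.Y194.BL.cM (Pool.Agent.Y194.BL.ap a b) m := by
  unfold c Pool.Agent.Y194.BL.cM
  exact Finset.prod_congr rfl fun q _ => cc_eq _ _ _

/-- For all Dirichlet characters `χ` whose modulus is composed of primes `q ∤ 2Δ` the entire function
`L(E, χ, s)` exists and is unique. -/
def Continues (a b : ℤ) : Prop :=
  ∀ m : ℕ, m ≠ 0 → (∀ q : ℕ, q.Prime → q ∣ m → GoodPrime a b q) →
    ∀ χ : DirichletCharacter ℂ m, ∃! F : ℂ → ℂ, IsTwistedL a b χ F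

/-- There is an integer `D ≠ 0` such that for all moduli `m` composed of primes `q ∤ 2Δ_i`, all primes `ℓ`
and all groups `H` of Dirichlet characters modulo `m` of `ℓ`-power order: if `∏ c_i(m) ≠ 0`, then at least
`#H / ℓ^v` characters `χ ∈ H` satisfy `L(E_i, χ, 1) ≠ 0` for all `i`, `v = v_ℓ(D ∏ c_i(m))`. If `m` is
admissible for `ℓ` and all the `E_i`, then `∏ c_i(m) ≠ 0` and `v_ℓ(D ∏ c_i(m)) = v_ℓ(D)`. -/
def GroupBound {r : ℕ} (a b : Fin r → ℤ) : Prop :=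
  ∃ D : ℤ, D ≠ 0 ∧
    ∀ m : ℕ, m ≠ 0 → (∀ i, ∀ q : ℕ, q.Prime → q ∣ m → GoodPrime (a i) (b i) q) →
      ∀ l : ℕ, l.Prime → ∀ H : Subgroup (DirichletCharacter ℂ m), IsPGroup l H →
        (∏ i, c (a i) (b i) m ≠ 0 →
          Nat.card H ≤ l ^ padicValInt l (D * ∏ i, c (a i) (b i) m) * nonvanishing a b H) ∧
        ((∀ i, Admissible (a i) (b i) l m) →
          ∏ i, c (a i) (b i) m ≠ 0 ∧ padicValInt l (D * ∏ i, c (a i) (b i) m) = padicValInt l D)

theorem continues (a b : ℤ) (hΔ : 4 * a ^ 3 + 27 * b ^ 2 ≠ 0) (N : ℕ) (hN : N ≠ 0)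
    (f : CuspForm (Gamma0 N : Subgroup (GL (Fin 2) ℝ)) 2) (hf : IsFormOf a b N f) :
    Continues a b := by
  classical
  have : NeZero N := ⟨hN⟩
  have hf' : Pool.Agent.Y18.BSD.IsFormOf a b N f :=
    ⟨hf.one, hf.real, hf.mul, hf.pow, hf.good, hf.bad, hf.fricke, hf.points⟩
  intro m hm hg χ
  have : NeZero m := ⟨hm⟩
  obtain ⟨F, hF, -⟩ := Pool.Agent.Y194.BL.exists_tw hΔ hf' m
    (Pool.Agent.Y194.BL.coprime_of_good hf' hg) χ
  exact ⟨F, hF, fun G hG => Pool.Agent.Y194.BL.isTw_unique hG hF⟩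

theorem general {r : ℕ} (a b : Fin r → ℤ) (hΔ : ∀ i, 4 * a i ^ 3 + 27 * b i ^ 2 ≠ 0)
    (N : Fin r → ℕ) (hN : ∀ i, N i ≠ 0)
    (f : ∀ i, CuspForm (Gamma0 (N i) : Subgroup (GL (Fin 2) ℝ)) 2)
    (hf : ∀ i, IsFormOf (a i) (b i) (N i) (f i)) (h0 : ∀ i, AnalyticRankZero (a i) (b i)) :
    GroupBound a b := by
  classical
  have : ∀ i, NeZero (N i) := fun i => ⟨hN i⟩
  have hf' : ∀ i, Pool.Agent.Y18.BSD.IsFormOf (a i) (b i) (N i) (f i) := fun i =>
    ⟨(hf i).one, (hf i).real, (hf i).mul, (hf i).pow, (hf i).good, (hf i).bad, (hf i).fricke,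
      (hf i).points⟩
  obtain ⟨D, hD, h⟩ := Pool.Agent.Y194.BL.group_main hΔ hf' h0
  have hD0 : ∏ i, D i ≠ 0 := Finset.prod_ne_zero_iff.2 fun i _ => hD i
  refine ⟨∏ i, D i, hD0, fun m hm hg l hl H hH => ⟨fun hc => ?_, fun hadm => ?_⟩⟩
  · have : NeZero m := ⟨hm⟩
    have hc' : ∀ i, Pool.Agent.Y194.BL.cM (Pool.Agent.Y194.BL.ap (a i) (b i)) m ≠ 0 := by
      intro i
      rw [← c_eq]
      exact Finset.prod_ne_zero_iff.1 hc i (Finset.mem_univ i)
    have hfin : Fintype H := Fintype.ofFinite H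
    set Z : Finset H := Finset.univ.filter (fun χ : H => ∃ i, Vanishes (a i) (b i)
      (χ : DirichletCharacter ℂ m)) with hZ
    have h1 := h m hg hc' l hl H hH Z (fun χ hχ => (Finset.mem_filter.1 hχ).2)
    have h2 : Nat.card H - Z.card = nonvanishing a b H := by
      have e1 : nonvanishing a b H = (Finset.univ.filter (fun χ : H => ¬ ∃ i,
          Vanishes (a i) (b i) (χ : DirichletCharacter ℂ m))).card := by
        unfold nonvanishing
        exact Nat.subtype_card _ (fun χ => by simp)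
      have e2 : Nat.card H = (Finset.univ : Finset H).card := by
        rw [Finset.card_univ, Nat.card_eq_fintype_card]
      have h3 := Finset.card_filter_add_card_filter_not (s := (Finset.univ : Finset H))
        (fun χ : H => ∃ i, Vanishes (a i) (b i) (χ : DirichletCharacter ℂ m))
      rw [e1, e2, hZ]
      omega
    have h5 : ∏ i, D i * Pool.Agent.Y194.BL.cM (Pool.Agent.Y194.BL.ap (a i) (b i)) m =
        (∏ i, D i) * ∏ i, c (a i) (b i) m := by
      rw [Finset.prod_mul_distrib]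
      congr 1
      exact Finset.prod_congr rfl fun i _ => (c_eq _ _ _).symm
    rw [h2, h5] at h1
    exact h1
  · have hlp : Prime (l : ℤ) := Nat.prime_iff_prime_int.1 hl
    have h1 : ¬ (l : ℤ) ∣ ∏ i, c (a i) (b i) m := by
      rw [hlp.dvd_finsetProd_iff]
      rintro ⟨i, -, hi⟩
      rw [c_eq] at hi
      exact Pool.Agent.Y194.BL.not_dvd_cM hl hm (hadm i) hi
    have h2 : ∏ i, c (a i) (b i) m ≠ 0 := fun h3 => h1 (h3 ▸ dvd_zero _)
    have : Fact l.Prime := ⟨hl⟩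
    exact ⟨h2, by rw [padicValInt.mul hD0 h2, padicValInt.eq_zero_of_not_dvd h1, add_zero]⟩

/-- **Theorem.** (1) Let `E_i : y² = x³ + a_i x + b_i`, `i = 1, …, r`, be elliptic curves over `ℚ` with newforms
`f_i` and `L(E_i, 1) ≠ 0`. For all Dirichlet characters `χ` whose modulus is composed of primes `q ∤ 2Δ_i` the
entire function `L(E_i, χ, s)` exists (and is unique). There is an integer `D ≠ 0` such that for all moduli `m`
composed of primes `q ∤ 2Δ_1 ⋯ Δ_r`, all primes `ℓ` and all groups `H` of Dirichlet characters modulo `m` of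
`ℓ`-power order: if `∏ c_i(m) ≠ 0`, then at least `#H / ℓ^v` of the `χ ∈ H` satisfy `L(E_i, χ, 1) ≠ 0` for
`i = 1, …, r`, where `v = v_ℓ(D ∏ c_i(m))`. If `m` is admissible for `ℓ`, then `v = v_ℓ(D)`.

(2) All this holds, without any hypothesis, for `X_0(11) : y² = x³ - 13392 x - 1080432`. -/
theorem result :
    (∀ (r : ℕ) (a b : Fin r → ℤ), (∀ i, 4 * a i ^ 3 + 27 * b i ^ 2 ≠ 0) →
      ∀ N : Fin r → ℕ, (∀ i, N i ≠ 0) →
      ∀ f : ∀ i, CuspForm (Gamma0 (N i) : Subgroup (GL (Fin 2) ℝ)) 2,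
        (∀ i, IsFormOf (a i) (b i) (N i) (f i)) → (∀ i, AnalyticRankZero (a i) (b i)) →
        (∀ i, Continues (a i) (b i)) ∧ GroupBound a b) ∧
    (Continues (-13392) (-1080432) ∧
      GroupBound (fun _ : Fin 1 => -13392) (fun _ : Fin 1 => -1080432)) := by
  have h1 : ∀ (r : ℕ) (a b : Fin r → ℤ), (∀ i, 4 * a i ^ 3 + 27 * b i ^ 2 ≠ 0) →
      ∀ N : Fin r → ℕ, (∀ i, N i ≠ 0) →
      ∀ f : ∀ i, CuspForm (Gamma0 (N i) : Subgroup (GL (Fin 2) ℝ)) 2,
        (∀ i, IsFormOf (a i) (b i) (N i) (f i)) → (∀ i, AnalyticRankZero (a i) (b i)) →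
        (∀ i, Continues (a i) (b i)) ∧ GroupBound a b := fun r a b hΔ N hN f hf h0 =>
    ⟨fun i => continues (a i) (b i) (hΔ i) (N i) (hN i) (f i) (hf i), general a b hΔ N hN f hf h0⟩
  refine ⟨h1, ?_⟩
  have h := Pool.Agent.Y18.BSD.Eleven.isFormOf
  obtain ⟨h2, h3⟩ := h1 1 (fun _ => -13392) (fun _ => -1080432) (fun _ => by norm_num)
    (fun _ => 11) (fun _ => by norm_num) (fun _ => _)
    (fun _ => ⟨h.one, h.real, h.mul, h.pow, h.good, h.bad, h.fricke, h.points⟩)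
    (fun _ => Pool.Agent.Y18.NF.rankZero11)
  exact ⟨h2 0, h3⟩

end Pool.Agent.Results.MP_ae0bd0_nt.LPowerGroups
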