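import Mathlib
import Pool.Agent.Y696.CTP.Cnt

/-!
# The rank part of the Birch and Swinnerton-Dyer conjecture over pure cubic fields

`E` is the curve `y² + y = x³` and `N` runs through the squarefree numbers, prime to `3` and not
`±1` modulo `9`, which are divisible by exactly one prime `2` modulo `3` (and by any number of
primes `1` modulo `3`).  Let `k = ℚ(∛N)`, a cubic field with one real and one complex place, not
Galois over `ℚ` (different `N` give different fields; this is not needed below).

* `L(E / k, s)` is continued to an entire function for all these `N`.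
* If `N` has no splitting `d₀ d₁ d₂` (a condition on the cubic residue symbols of the primes that
  divide `N`), then `L(E / k, 1) ≠ 0`, the group `E(k)` is finite (of order `3` if `N ≠ 2`), and `3`
  kills the `3`-primary part of `Ш(E / k)`.
* This is the case for at least the proportion `∏_{i ≥ 1} (1 - 3^{-i}) - ε` of the `N`, and the
  product is greater than `0.56`.

The group `Sha` of the library is the group of the continuous cocycles of the absolute Galois group
of `k` with values in the points over an algebraic closure of `k` that are coboundaries at all the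
places, modulo the coboundaries.

Joint work: the proportion is project CX of helper703 (see `Pool/Agent/Y703/CX/Fin.lean`), the
arithmetic over the cubic extensions of `ℚ(ω)` is projects CT, CTK, CTE (see the headers of
`Pool/Agent/Y703/CT` and of the files imported by `Pool/Agent/Y696/CTK/Fin.lean` and
`Pool/Agent/Y696/CTE/Fin.lean`), the parts for pure cubic fields are by helper696, helper948,
helper689, helper888, helper405.
-/

set_option autoImplicit false

namespace Pool.Agent.Results.MP_ae0bd0_nt.PureCubicFields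

open NumberField WeierstrassCurve
open Pool.Agent.TH841.NF.D (Sha)
open scoped Classical

/-- The curve `E : y² + y = x³` over `k`. -/
def curve (k : Type) [Field k] : WeierstrassCurve k := ⟨0, 0, 1, 0, 0⟩

/-- `N` is squarefree, not divisible by `3`, not `±1` modulo `9`, and divisible by exactly one prime
that is `2` modulo `3`. -/
def InClass (N : ℕ) : Prop :=
  Squarefree N ∧ ¬ 3 ∣ N ∧ N % 9 ≠ 1 ∧ N % 9 ≠ 8 ∧
    ∃ q : ℕ, q.Prime ∧ q % 3 = 2 ∧ q ∣ N ∧ ∀ p : ℕ, p.Prime → p ∣ N → p ≠ q → p % 3 = 1

/-- In every factorization of `N` in coprime factors `d₀ d₁ d₂` for which `d₁ d₂²`, `d₂ d₀²`,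
`d₀ d₁²` are cubes modulo the primes dividing `d₀`, `d₁`, `d₂` respectively, two factors are `1`. -/
def HasNoSplitting (N : ℕ) : Prop :=
  ∀ d : ZMod 3 → ℕ, ∏ c, d c = N → (∀ c c', c ≠ c' → Nat.Coprime (d c) (d c')) →
    (∀ (c : ZMod 3) (p : ℕ), p.Prime → p ∣ d c →
      ∃ x : ℤ, (p : ℤ) ∣ (d (c + 1) : ℤ) * (d (c + 2) : ℤ) ^ 2 - x ^ 3) →
    ∃ c, ∀ c', c' ≠ c → d c' = 1

/-- There is an entire function equal to `L(E / k, s)` for `Re s > 3 / 2`. -/
def HasEntireL (k : Type) [Field k] [NumberField k] : Prop :=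
  ∃ Lk : ℂ → ℂ, Differentiable ℂ Lk ∧
    ∀ s : ℂ, 3 / 2 < s.re →
      LSeriesSummable ((fun n : ℤ => (n : ℂ)) ∘ (curve k).LFunction) s ∧
        Lk s = (curve k).LSeries s

/-- There is an entire function equal to `L(E / k, s)` for `Re s > 3 / 2`, its value at `1` is not
zero, `E(k)` is finite (so both the analytic rank and the rank are `0`), and every element of the
`3`-primary part of `Ш(E / k)` is killed by `3`. -/
def RankZero (k : Type) [Field k] [NumberField k] : Prop :=
  (∃ Lk : ℂ → ℂ, Differentiable ℂ Lk ∧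
    (∀ s : ℂ, 3 / 2 < s.re →
      LSeriesSummable ((fun n : ℤ => (n : ℂ)) ∘ (curve k).LFunction) s ∧
        Lk s = (curve k).LSeries s) ∧ Lk 1 ≠ 0) ∧
  Finite (curve k).toAffine.Point ∧
  ∀ (n : ℕ) (x : Sha (curve k)), 3 ^ n • x = 0 → 3 • x = 0

theorem result :
    (∃ c : ℝ, 0 < c ∧ ∃ X₀ : ℕ, ∀ X : ℕ, X₀ ≤ X →
      c * X / Real.sqrt (Real.log X) ≤ (((Finset.Icc 1 X).filter fun N => InClass N).card : ℝ)) ∧
    (∀ N : ℕ, InClass N →
      (∃ (k : Type) (_ : Field k) (_ : NumberField k) (θ : k),
        Module.finrank ℚ k = 3 ∧ θ ^ 3 = (N : k)) ∧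
      ∀ (k : Type) [Field k] [NumberField k] (θ : k), Module.finrank ℚ k = 3 → θ ^ 3 = (N : k) →
        HasEntireL k ∧
        (HasNoSplitting N → RankZero k ∧ (N ≠ 2 → Nat.card (curve k).toAffine.Point = 3))) ∧
    (0.56 : ℝ) < ∏' i : ℕ, (1 - (1 / 3 : ℝ) ^ (i + 1)) ∧
    ∀ ε : ℝ, 0 < ε → ∃ X₀ : ℕ, ∀ X : ℕ, X₀ ≤ X →
      ((∏' i : ℕ, (1 - (1 / 3 : ℝ) ^ (i + 1))) - ε) *
          (((Finset.Icc 1 X).filter fun N => InClass N).card : ℝ) ≤
        (((Finset.Icc 1 X).filter fun N => InClass N ∧
          ∀ (k : Type) [Field k] [NumberField k] (θ : k),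
            Module.finrank ℚ k = 3 → θ ^ 3 = (N : k) →
              RankZero k ∧ (N ≠ 2 → Nat.card (curve k).toAffine.Point = 3)).card : ℝ) := by
  have e1 : ∀ X : ℕ, (Finset.Icc 1 X).filter (fun N => InClass N) =
      (Finset.Icc 1 X).filter fun N => Squarefree N ∧ Pool.Agent.Y703.CT.Cls N := fun X =>
    Finset.filter_congr fun N _ => (Pool.Agent.Y696.CTP.cls_sq N).symm
  have e2 : ∀ X : ℕ, (Finset.Icc 1 X).filter (fun N => InClass N ∧
      ∀ (k : Type) [Field k] [NumberField k] (θ : k), Module.finrank ℚ k = 3 → θ ^ 3 = (N : k) →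
        RankZero k ∧ (N ≠ 2 → Nat.card (curve k).toAffine.Point = 3)) =
      (Finset.Icc 1 X).filter fun N => Squarefree N ∧ Pool.Agent.Y703.CT.Cls N ∧
        Pool.Agent.Y696.CTP.GP N := fun X => Finset.filter_congr fun N _ => by
    rw [← and_assoc]
    exact and_congr (Pool.Agent.Y696.CTP.cls_sq N).symm Iff.rfl
  obtain ⟨h1, h2, h3⟩ := Pool.Agent.Y696.CTP.final
  refine ⟨?_, fun N hN => ?_, h2, ?_⟩
  · simp only [e1]
    exact Pool.Agent.Y696.CTP.cnt_low
  · have h := (Pool.Agent.Y696.CTP.cls_sq N).2 hN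
    exact h1 N h.1 h.2
  · simp only [e1, e2]
    exact h3

end Pool.Agent.Results.MP_ae0bd0_nt.PureCubicFields
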