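import Pool.Agent.Y686.EC.Fin

/-!
# Elliptic curves over `k(t)` with a rational subgroup of order three

Let `k` be a finite field with `q` elements of characteristic at least five and `K = k(t)`. Let
`E : y ^ 2 = x ^ 3 + a x + b` be an elliptic curve over `K` with a subgroup of order three defined
over `K`; its nonzero points are `(x₀, ± √δ)` with `δ = x₀ ^ 3 + a x₀ + b`.

For a proportion at least `c`, for every `c < 1 / 2`, of the monic squarefree polynomials `D` of
degree `2 g + 1` (divisible by a given `m`), `g` large, the following holds for ALL such `E` whose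
kernel field `K(√δ)` is `K(√D)` and which have good or nonsplit multiplicative reduction at the
finite places not dividing `D` (or additive reduction if `q_v = 1` modulo three and `D` is not a
square at `v`): `E(K)` is finite and `L(T, E)` does not vanish at the central point `T = 1 / q`.

These curves include the curve `y ^ 2 = x ^ 3 + D`, and for every `E` with a rational subgroup of
order three, good outside `m` after the twist by `δ`, the quadratic twist of `E` by `δ D`.
-/

set_option autoImplicit false

open Polynomial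

namespace Pool.Agent.Results.MP_ae0bd0_nt.ThreeIsogenies

open Pool.Agent.Y686.EC

theorem result (k : Type) [Field k] [Finite k] (h2 : (2 : k) ≠ 0) (h3 : (3 : k) ≠ 0) :
    (∀ m : k[X], m.Monic → Squarefree m → ∀ c : ℝ, c < 1 / 2 → ∃ N : ℕ, ∀ g : ℕ, N ≤ g →
      c * (twists g m).ncard ≤
        {D : k[X] | D ∈ twists g m ∧ ∀ a b : RatFunc k, IsOver D a b → BothZero a b}.ncard) ∧
    (∀ c : ℝ, c < 1 / 2 → ∃ N : ℕ, ∀ g : ℕ, N ≤ g → c * (twists g (1 : k[X])).ncard ≤
      {D : k[X] | D ∈ twists g 1 ∧ BothZero 0 (algebraMap k[X] (RatFunc k) D)}.ncard) ∧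
    (∀ a b x : RatFunc k, HasSubgroup a b x → ∃ m : k[X], m.Monic ∧ Squarefree m ∧
      ∀ D : k[X], D ≠ 0 → m ∣ D →
        IsOver D ((algebraMap k[X] (RatFunc k) D * delta a b x) ^ 2 * a)
          ((algebraMap k[X] (RatFunc k) D * delta a b x) ^ 3 * b)) := by
  refine ⟨?_, ?_, ?_⟩
  · intro m hm hs c hc
    exact main_half h2 h3 hm hs hc
  · intro c hc
    obtain ⟨N, hN⟩ := main_half h2 h3 monic_one squarefree_one hc
    refine ⟨N, fun g hg => (hN g hg).trans ?_⟩
    have h4 : (good g (1 : k[X])).ncard ≤
        {D : k[X] | D ∈ twists g 1 ∧ BothZero 0 (algebraMap k[X] (RatFunc k) D)}.ncard := by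
      apply Set.ncard_le_ncard
      · rintro D ⟨hD, hD2⟩
        exact ⟨hD, hD2 _ _ (isOver_mordell h2 h3 hD.1.ne_zero)⟩
      · exact (twists_finite g 1).subset fun D hD => hD.1
    exact_mod_cast h4
  · intro a b x h
    obtain ⟨m, hm, hs, hg⟩ := exists_good (h.twist h.delta_ne).disc
    exact ⟨m, hm, hs, fun D hD hmD => isOver_twist hm.ne_zero hD hmD h hg⟩

end Pool.Agent.Results.MP_ae0bd0_nt.ThreeIsogenies
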